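import Pool.Agent.Run7.h946.SQ.Tot

/-!
# The gap from a square to the next prime of a Bohr set, compared with Euler's function

`1, α_1, …, α_r` are linearly independent over `ℚ`. There is one thin set `E` (at most `X / (log X)^A` elements up to `X`, for
every `A`) such that for all `W`, `δ > 0` and all large `n ∉ E` the interval `(n², n² + φ(n) / (log n)^W]` contains a prime `p`
with `α p` in `B`, for ALL the boxes `B` modulo one of volume at least `δ`.
-/

set_option autoImplicit false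
set_option maxHeartbeats 4000000

namespace Pool.Agent.Results.MP_36c81c_nt.BohrPrimes

open Finset Filter Topology
open Run7.h946.SQ (Bohr Independent IsThin cnt Good)

/-- the distance from `n²` to the next prime of the Bohr set: the least `a > 0` such that `n² + a` is a prime with
`α (n² + a)` in the box `[u, v)` modulo one (and `0` if there is no such `a`) -/
noncomputable def gap {r : ℕ} (α u v : Fin r → ℝ) (n : ℕ) : ℕ := sInf {a : ℕ | 0 < a ∧ Bohr α u v (n ^ 2 + a)}

/-- **Theorem.** -/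
theorem result {r : ℕ} (α : Fin r → ℝ) (hα : Independent α) : ∃ E : Set ℕ, IsThin E ∧
    ∀ (W : ℕ) (δ : ℝ), 0 < δ → ∃ n₀ : ℕ, ∀ n : ℕ, n₀ ≤ n → n ∉ E → ∀ u v : Fin r → ℝ, (∀ j, u j ≤ v j) →
      (∀ j, v j ≤ u j + 1) → δ ≤ ∏ j, (v j - u j) →
      0 < gap α u v n ∧ Bohr α u v (n ^ 2 + gap α u v n) ∧ (gap α u v n : ℝ) ≤ Nat.totient n / Real.log n ^ W := by
  obtain ⟨E, hE, h⟩ := Run7.h946.SQ.exceptional hα
  refine ⟨E, hE, fun W δ hδ => ?_⟩
  obtain ⟨n₀, h1⟩ := h (W + 2) (δ / 2) (by positivity)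
  obtain ⟨n₁, h2⟩ := Run7.h946.SQ.large_log (W + 2) 1 1 one_pos
  obtain ⟨n₂, h3⟩ := exists_nat_ge (Real.exp 6)
  refine ⟨n₀ + n₁ + n₂ + 8, fun n hn hnE u v hu hv hvol => ?_⟩
  have hg := h1 n (by omega) hnE
  have hn8 : (8 : ℝ) ≤ n := by exact_mod_cast (by omega : 8 ≤ n)
  have hl6 : 6 ≤ Real.log n := by
    rw [Real.le_log_iff_exp_le (by linarith)]
    exact h3.trans (by exact_mod_cast (by omega : n₂ ≤ n))
  have hl0 : 0 < Real.log n := by linarith
  have h4 := h2 n (by omega)
  rw [one_mul] at h4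
  obtain ⟨L, hL⟩ : ∃ L, L = ⌈(n : ℝ) / Real.log n ^ (W + 2)⌉₊ := ⟨_, rfl⟩
  have hL1 : (n : ℝ) / Real.log n ^ (W + 2) ≤ L := by rw [hL]; exact Nat.le_ceil _
  have hL2 : (L : ℝ) ≤ 2 * ((n : ℝ) / Real.log n ^ (W + 2)) := by
    have h5 := Nat.ceil_lt_add_one (show 0 ≤ (n : ℝ) / Real.log n ^ (W + 2) by positivity)
    rw [← hL] at h5
    linarith
  have hL3 : (L : ℝ) ≤ n := by
    refine hL2.trans ?_
    have h5 : (2 : ℝ) ≤ Real.log n ^ (W + 2) := by
      calc (2 : ℝ) ≤ Real.log n := by linarith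
        _ = Real.log n ^ 1 := (pow_one _).symm
        _ ≤ Real.log n ^ (W + 2) := pow_le_pow_right₀ (by linarith) (by omega)
    have h6 : (n : ℝ) / Real.log n ^ (W + 2) ≤ n / 2 := div_le_div_of_nonneg_left (by linarith) (by norm_num) h5
    linarith
  have hL4 : L ≤ n := by exact_mod_cast hL3
  obtain ⟨p, a1, a2, a3⟩ := hg.exists (by omega) (s := n ^ 2) (t := n ^ 2 + L)
    (Nat.pow_le_pow_left (Nat.sub_le _ _) 2) (Nat.le_add_right _ _) (by nlinarith) (by push_cast; linarith)
    hu hv (by linarith : δ / 2 < δ) hvol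
  have hne : {a : ℕ | 0 < a ∧ Bohr α u v (n ^ 2 + a)}.Nonempty := by
    refine ⟨p - n ^ 2, by omega, ?_⟩
    have : n ^ 2 + (p - n ^ 2) = p := by omega
    rw [this]
    exact a3
  have hmem := Nat.sInf_mem hne
  refine ⟨hmem.1, hmem.2, ?_⟩
  have hle : gap α u v n ≤ p - n ^ 2 := by
    apply Nat.sInf_le
    refine ⟨by omega, ?_⟩
    have : n ^ 2 + (p - n ^ 2) = p := by omega
    rw [this]
    exact a3
  have hle2 : gap α u v n ≤ L := by omega
  have hle3 : (gap α u v n : ℝ) ≤ L := by exact_mod_cast hle2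
  have htot := Run7.h946.SQ.totient_lower n (by omega)
  rw [le_div_iff₀ (by positivity)]
  have hlw : 0 < Real.log n ^ W := by positivity
  calc (gap α u v n : ℝ) * Real.log n ^ W ≤ (2 * ((n : ℝ) / Real.log n ^ (W + 2))) * Real.log n ^ W :=
        mul_le_mul_of_nonneg_right (hle3.trans hL2) hlw.le
    _ = 2 * n / (Real.log n * Real.log n) := by
        rw [pow_add]
        field_simp
    _ ≤ n / (3 * Real.log n) := by
        rw [div_le_div_iff₀ (by positivity) (by positivity)]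
        have : 0 ≤ (n : ℝ) * Real.log n := by positivity
        nlinarith
    _ ≤ Nat.totient n := htot

end Pool.Agent.Results.MP_36c81c_nt.BohrPrimes
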