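import Mathlib
import Pool.Agent.Run7.h337.MK.TreeU
import Pool.Agent.R481.TH.Tot

/-!
# Trees of primes between n² and n² + φ(φ(...φ(n))) for almost all n
-/

set_option autoImplicit false

namespace Pool.Agent.Results.MP_36c81c_nt.PrimeTreesBelowIteratedTotients

open Finset Filter
open Run7.h337.MK (PrimeLaw AllTrees)
open Pool.Agent.N384.MQ (ev_log_pow ev_log_ge)

lemma iter_pos (k n : ℕ) (hn : 1 ≤ n) : 1 ≤ Nat.totient^[k] n := by
  induction k with
  | zero => exact hn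
  | succ k ih =>
    rw [Function.iterate_succ_apply']
    exact Nat.totient_pos.2 ih

lemma iter_le (k n : ℕ) : Nat.totient^[k] n ≤ n := by
  induction k with
  | zero => exact le_refl n
  | succ k ih =>
    rw [Function.iterate_succ_apply']
    exact (Nat.totient_le _).trans ih

lemma iter_low (k n X : ℕ) (hn : 1 ≤ n) (hnX : n ≤ X) (L : ℝ) (hL : L = Real.log X) (hL4 : 4 ≤ L) :
    (n : ℝ) ≤ L ^ (2 * k) * (Nat.totient^[k] n : ℕ) := by
  induction k with
  | zero => simp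
  | succ k ih =>
    have h1 := iter_pos k n hn
    have h2 := Pool.Agent.R481.TH.le_log_mul_totient (Nat.totient^[k] n) (by omega)
    rw [← Function.iterate_succ_apply' Nat.totient k n] at h2
    have h3 : ((Nat.totient^[k] n : ℕ) : ℝ) ≤ ((Nat.log 2 (Nat.totient^[k] n) : ℕ) + 1) * (Nat.totient^[k + 1] n : ℕ) := by
      exact_mod_cast h2
    have h4 : ((Nat.log 2 (Nat.totient^[k] n) : ℕ) : ℝ) * Real.log 2 ≤ L := by
      rw [hL]
      have h5 : (2 : ℝ) ^ (Nat.log 2 (Nat.totient^[k] n)) ≤ X := by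
        have h6 : 2 ^ (Nat.log 2 (Nat.totient^[k] n)) ≤ X :=
          (Nat.pow_log_le_self 2 (by omega)).trans ((iter_le k n).trans hnX)
        exact_mod_cast h6
      have h7 := Real.log_le_log (by positivity) h5
      rwa [Real.log_pow] at h7
    have h8 := Real.log_two_gt_d9
    have h9 : ((Nat.log 2 (Nat.totient^[k] n) : ℕ) : ℝ) + 1 ≤ L ^ 2 := by
      have h10 : (0 : ℝ) ≤ ((Nat.log 2 (Nat.totient^[k] n) : ℕ) : ℝ) := Nat.cast_nonneg _
      have h11 : ((Nat.log 2 (Nat.totient^[k] n) : ℕ) : ℝ) * (1 / 2) ≤ L := by nlinarith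
      nlinarith
    have h12 : (0 : ℝ) ≤ ((Nat.totient^[k + 1] n : ℕ) : ℝ) := Nat.cast_nonneg _
    calc (n : ℝ) ≤ L ^ (2 * k) * (Nat.totient^[k] n : ℕ) := ih
      _ ≤ L ^ (2 * k) * (L ^ 2 * (Nat.totient^[k + 1] n : ℕ)) := by
          apply mul_le_mul_of_nonneg_left _ (by positivity)
          exact h3.trans (mul_le_mul_of_nonneg_right h9 h12)
      _ = L ^ (2 * (k + 1)) * (Nat.totient^[k + 1] n : ℕ) := by
          rw [← mul_assoc]
          congr 1
          ring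

theorem result (r K T U : ℕ) (ε : ℝ) (hε : 0 < ε) (hε1 : ε ≤ 1) :
    ∃ V C D X₀ : ℕ, ∀ X : ℕ, X₀ ≤ X →
    ∃ E : Finset ℕ, (E.card : ℝ) ≤ X / Real.log X ^ U ∧ ∀ n : ℕ, 1 ≤ n → n ≤ X → n ∉ E → ∀ k ≤ K,
    ∀ u v : ℕ, n ^ 2 ≤ u → v ≤ n ^ 2 + 2 + Nat.totient^[k] n →
      (u : ℝ) + (Nat.totient^[k] n : ℕ) / Real.log X ^ T ≤ v →
    PrimeLaw 1 X ε u v ∧ AllTrees 1 r T V C D X ε u v := by
  classical
  obtain ⟨V, C, D, X₀, h⟩ := Run7.h337.MK.tree_unc 1 (le_refl 1) r (T + U + 1 + 2 * K) U ε hε hε1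
  refine ⟨V, C, D, X₀, fun X hX => ?_⟩
  obtain ⟨hL4, E, hE, h2⟩ := h X hX
  refine ⟨E, hE, fun n hn1 hnX hnE k hk u v hu hv huv => ?_⟩
  obtain ⟨L, hL⟩ : ∃ L, L = Real.log X := ⟨_, rfl⟩
  have hL4' : 4 ≤ L := by rw [hL]; exact hL4
  rw [← hL] at hL4 h2 huv
  have hL1 : (1 : ℝ) ≤ L := by linarith
  have hL0 : (0 : ℝ) < L := by linarith
  have hmono : ∀ e f : ℕ, e ≤ f → L ^ e ≤ L ^ f := fun e f hef => pow_le_pow_right₀ hL1 hef
  obtain ⟨h3, h4⟩ := h2 n (n + 1) hn1 (Nat.lt_succ_self n) (by omega)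
    (by
      push_cast
      have : (1 : ℝ) ≤ L ^ (T + U + 1 + 2 * K) := one_le_pow₀ hL1
      linarith)
    (by
      intro m h5 h6
      rw [show m = n by omega]
      exact hnE)
  have h5 := iter_le k n
  have h6 := iter_low k n X hn1 hnX L hL hL4'
  have h7 : (X : ℝ) ^ 1 / L ^ (T + U + 1 + 2 * K) ≤ (Nat.totient^[k] n : ℕ) / L ^ T := by
    rw [pow_one, div_le_div_iff₀ (by positivity) (by positivity)]
    have h8 : (0 : ℝ) ≤ ((Nat.totient^[k] n : ℕ) : ℝ) := Nat.cast_nonneg _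
    calc (X : ℝ) * L ^ T ≤ (n * L ^ (U + 1)) * L ^ T := mul_le_mul_of_nonneg_right h3 (by positivity)
      _ ≤ ((L ^ (2 * k) * (Nat.totient^[k] n : ℕ)) * L ^ (U + 1)) * L ^ T := by
          apply mul_le_mul_of_nonneg_right _ (by positivity)
          exact mul_le_mul_of_nonneg_right h6 (by positivity)
      _ = (Nat.totient^[k] n : ℕ) * L ^ (2 * k + (U + 1) + T) := by ring
      _ ≤ (Nat.totient^[k] n : ℕ) * L ^ (T + U + 1 + 2 * K) := by
          apply mul_le_mul_of_nonneg_left _ h8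
          exact hmono _ _ (by omega)
  have hv' : v ≤ (n + 1) ^ (1 + 1) := by
    have : (n + 1) ^ (1 + 1) = n ^ 2 + 2 * n + 1 := by ring
    rw [this]
    omega
  obtain ⟨h9, h10⟩ := h4 u v hu hv' (by linarith)
  refine ⟨h9, ?_⟩
  have h11 : (0 : ℝ) ≤ (Nat.totient^[k] n : ℕ) / L ^ T := by positivity
  exact Run7.h337.MK.allTrees_mono (by omega) (by rw [← hL]; exact hL1) (by linarith) h10

end Pool.Agent.Results.MP_36c81c_nt.PrimeTreesBelowIteratedTotients
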