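import Mathlib
import Pool.Agent.Run7.h794.MK.All
import Pool.Agent.Run7.h591.EG.Fin2

set_option autoImplicit false
set_option maxHeartbeats 4000000

namespace Pool.Agent.Results.MP_36c81c_nt.ReturnTotient

open Finset MeasureTheory
open Pool.Agent.Run7.h591.EG

/-- the primes `p` with `n^2 < p ≤ n^2 + 1 + φ(n)` for which `p - 1` is a return time:
the set of the points of `A` which are again in `A` at the time `p - 1` has measure `> μ(A)^2 - ε` -/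
noncomputable def retPrimes {X : Type*} [MeasurableSpace X] (μ : Measure X) (T : X → X) (A : Set X) (ε : ℝ) (n : ℕ) :
    Finset ℕ :=
  (Ioc (n ^ 2) (n ^ 2 + 1 + Nat.totient n)).filter
    (fun p => p.Prime ∧ μ.real A ^ 2 - ε < μ.real (A ∩ T^[p - 1] ⁻¹' A))

lemma tot_win : ∃ n₀ : ℕ, ∀ n : ℕ, n₀ ≤ n → (n - 1) ^ 2 ≤ n ^ 2 ∧ n ^ 2 ≤ n ^ 2 + 1 + Nat.totient n ∧
    n ^ 2 + 1 + Nat.totient n ≤ (n + 1) ^ 2 ∧
    (n : ℝ) / Real.log n ^ 2 ≤ ((n ^ 2 + 1 + Nat.totient n : ℕ) : ℝ) - ((n ^ 2 : ℕ) : ℝ) := by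
  obtain ⟨n1, h1⟩ := Pool.Agent.H373R2.T7.ev_L' 3
  refine ⟨max n1 3, fun n hn => ?_⟩
  have hL := h1 n (le_trans (le_max_left _ _) hn)
  have hn3 : 3 ≤ n := le_trans (le_max_right _ _) hn
  have hφ : Nat.totient n ≤ n := Nat.totient_le n
  refine ⟨Nat.pow_le_pow_left (by omega) 2, by omega, by nlinarith, ?_⟩
  have h2 := Pool.Agent.R481.TH.le_log_mul_totient n (by omega)
  have h3 : (n : ℝ) ≤ ((Nat.log 2 n : ℕ) + 1) * (Nat.totient n : ℝ) := by exact_mod_cast h2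
  have h4 : ((Nat.log 2 n : ℕ) : ℝ) ≤ 2 * Real.log n := by
    have h5 : (2 : ℝ) ^ (Nat.log 2 n) ≤ n := by exact_mod_cast Nat.pow_log_le_self 2 (by omega)
    have h6 := Real.log_le_log (by positivity) h5
    rw [Real.log_pow] at h6
    have h7 := Real.log_two_gt_d9
    have h8 : (0 : ℝ) ≤ (Nat.log 2 n : ℕ) := by positivity
    nlinarith
  have h5 : ((Nat.log 2 n : ℕ) : ℝ) + 1 ≤ Real.log n ^ 2 := by nlinarith
  have h6 : (n : ℝ) ≤ Real.log n ^ 2 * (Nat.totient n : ℝ) := h3.trans (by gcongr)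
  push_cast
  rw [div_le_iff₀ (by positivity)]
  have h7 : 0 ≤ Real.log n ^ 2 := by positivity
  nlinarith

theorem result {X : Type*} [MeasurableSpace X] (μ : Measure X) [IsProbabilityMeasure μ] (T : X → X)
    (hT : MeasurePreserving T μ μ) (A : Set X) (hA : MeasurableSet A) (ε : ℝ) (hε : 0 < ε) :
    ∃ κ : ℝ, 0 < κ ∧ ∀ C : ℕ, ∃ N₀ : ℕ, ∀ N : ℕ, N₀ ≤ N → ∃ Bad : Finset ℕ, Bad ⊆ Ioc N (2 * N) ∧
      (Bad.card : ℝ) ≤ N / Real.log N ^ C ∧ ∀ n ∈ Ioc N (2 * N), n ∉ Bad →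
        κ * Nat.totient n / Real.log n ≤ ((retPrimes μ T A ε n).card : ℝ) ∧
        ∃ p : ℕ, p.Prime ∧ n ^ 2 < p ∧ p - n ^ 2 ≤ 1 + Nat.totient n ∧
          μ.real A ^ 2 - ε < μ.real (A ∩ T^[p - 1] ⁻¹' A) := by
  obtain ⟨κ, hκ, h1, _⟩ := khin Pool.Agent.Run7.h794.MK.all_all hT hA ε hε
  obtain ⟨n₀, hn₀⟩ := tot_win
  obtain ⟨n₂, hn₂⟩ := Pool.Agent.H373R2.T7.ev_L' 1
  refine ⟨κ, hκ, ?_⟩
  have h3 := AW_at' h1 (fun n => n ^ 2) (fun n => n ^ 2 + 1 + Nat.totient n) 2 n₀ hn₀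
    (fun n => κ * Nat.totient n ≤ Real.log n * (((pr (n ^ 2) (n ^ 2 + 1 + Nat.totient n)).filter
        (fun p => μ.real A ^ 2 - ε < μ.real (A ∩ T^[p - 1] ⁻¹' A))).card : ℝ)) (by
      intro N n hn h
      refine le_trans ?_ h
      push_cast
      nlinarith)
  refine alm_mono _ _ (max n₂ 2) ?_ h3
  intro n hn e1
  have hn2 : 2 ≤ n := le_trans (le_max_right _ _) hn
  have hLn := hn₂ n (le_trans (le_max_left _ _) hn)
  have hL0 : 0 < Real.log n := by linarith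
  have hm : retPrimes μ T A ε n = (pr (n ^ 2) (n ^ 2 + 1 + Nat.totient n)).filter
      (fun p => μ.real A ^ 2 - ε < μ.real (A ∩ T^[p - 1] ⁻¹' A)) := by
    rw [pr_Ioc]
    rfl
  have f1 : κ * Nat.totient n / Real.log n ≤ ((retPrimes μ T A ε n).card : ℝ) := by
    rw [hm, div_le_iff₀ hL0]
    linarith
  refine ⟨f1, ?_⟩
  have hφ : (0 : ℝ) < Nat.totient n := by exact_mod_cast Nat.totient_pos.2 (by omega)
  have h5 : (0 : ℝ) < ((retPrimes μ T A ε n).card : ℝ) := lt_of_lt_of_le (by positivity) f1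
  have h6 : 0 < (retPrimes μ T A ε n).card := by exact_mod_cast h5
  obtain ⟨p, hp⟩ := card_pos.1 h6
  unfold retPrimes at hp
  rw [mem_filter, mem_Ioc] at hp
  exact ⟨p, hp.2.1, hp.1.1, by omega, hp.2.2⟩

end Pool.Agent.Results.MP_36c81c_nt.ReturnTotient
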