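import Mathlib
import Pool.Agent.Run7.h880.RP.Tot

/-!
# MP_36c81c_nt: the number of trials for a prime after `n^2` is proportional to Euler's totient

Let `P` be fixed and `rho = φ(P) / P`. For the multiples `n` of `P` in `(N, 2 N]` the primes `n^2 + w` and `n^2 - w` have `w` prime
to `P`. We choose `m` random positions `w` prime to `P` on each side, independent and uniform in `[1, q]`, `N / log^a N ≤ q ≤ N`.
The number `m` of trials after which all the (regular) `n` have primes after `n^2` is `2 rho log² N`; more precisely, for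
`m = kap log² N` the pairs of the two counts, divided by their expected value `kap log N / (2 rho)`, fill the region
`kap (rate x + rate y) ≤ 2 rho` in probability.
-/

set_option autoImplicit false

namespace Pool.Agent.Results.MP_36c81c_nt.TotientScaling

open Finset Filter

/-- the number of the `j` for which `n ^ 2 + v j` is a prime -/
def after {m : ℕ} (v : Fin m → ℕ) (n : ℕ) : ℕ := (univ.filter fun j => (n ^ 2 + v j).Prime).card

/-- the number of the `j` for which `n ^ 2 - w j` is a prime -/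
def before {m : ℕ} (w : Fin m → ℕ) (n : ℕ) : ℕ := (univ.filter fun j => (n ^ 2 - w j).Prime).card

/-- all the `m`-tuples of integers of `[1, q]` prime to `P` -/
def positions (P q m : ℕ) : Finset (Fin m → ℕ) := Fintype.piFinset fun _ => (Icc 1 q).filter fun w => P.Coprime w

/-- the proportion of the integers prime to `P` -/
noncomputable def rho (P : ℕ) : ℝ := P.totient / P

/-- the numbers of the primes of `[n ^ 2 - q, n ^ 2)` and of `(n ^ 2, n ^ 2 + q]` are `q / (2 log N)` up to the factor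
`1 + O(1 / log N)` -/
def Regular (N q n : ℕ) : Prop :=
  |(((Icc 1 q).filter fun w => (n ^ 2 - w).Prime).card : ℝ) / q - 1 / (2 * Real.log N)| ≤ 3 / Real.log N ^ 2 ∧
  |(((Icc 1 q).filter fun w => (n ^ 2 + w).Prime).card : ℝ) / q - 1 / (2 * Real.log N)| ≤ 3 / Real.log N ^ 2

/-- `n` is a regular multiple of `P` in `(N, 2 N]` -/
def Multiple (P N q n : ℕ) : Prop := N < n ∧ n ≤ 2 * N ∧ P ∣ n ∧ Regular N q n

/-- the rate function of the Poisson law -/
noncomputable def rate (u : ℝ) : ℝ := 1 - u + u * Real.log u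

/-- the limit shape -/
def Region (P : ℕ) (kap : ℝ) : Set (ℝ × ℝ) := {z | 0 ≤ z.1 ∧ 0 ≤ z.2 ∧ kap * (rate z.1 + rate z.2) ≤ 2 * rho P}

/-- the distance of `z` from the pair of the two counts of `n`, divided by their expected value `kap log N / (2 rho)` -/
noncomputable def dist (P : ℕ) (kap : ℝ) (N : ℕ) {m : ℕ} (w v : Fin m → ℕ) (n : ℕ) (z : ℝ × ℝ) : ℝ :=
  |before w n / (kap / (2 * rho P) * Real.log N) - z.1| + |after v n / (kap / (2 * rho P) * Real.log N) - z.2|

/-- the pairs of normalized counts fill the region, up to `ε` -/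
def Fills (P : ℕ) (kap ε : ℝ) (N q : ℕ) {m : ℕ} (w v : Fin m → ℕ) : Prop :=
  (∀ n, Multiple P N q n → ∃ z ∈ Region P kap, dist P kap N w v n z ≤ ε) ∧
  (∀ z ∈ Region P kap, ∃ n, Multiple P N q n ∧ dist P kap N w v n z ≤ ε)

open Classical in
theorem result :
    -- almost all integers are regular
    (∀ a U : ℕ, ∃ N₀ : ℕ, ∀ N : ℕ, N₀ ≤ N → ∀ q : ℕ, (N : ℝ) ≤ q * Real.log N ^ a → q ≤ N →
      (((Ioc N (2 * N)).filter fun n => ¬ Regular N q n).card : ℝ) ≤ N / Real.log N ^ U) ∧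
    ∀ P : ℕ, 0 < P →
    -- the limit shape for `m = kap log² N`
    (∀ kap ε : ℝ, 0 < kap → 0 < ε → ∀ a : ℕ, ∃ (N₀ : ℕ) (K : ℝ), ∀ N : ℕ, N₀ ≤ N → ∀ q : ℕ,
      (N : ℝ) ≤ q * Real.log N ^ a → q ≤ N → ∀ m : ℕ, |(m : ℝ) - kap * Real.log N ^ 2| ≤ 1 →
      (((positions P q m ×ˢ positions P q m).filter fun r => ¬ Fills P kap ε N q r.1 r.2).card : ℝ) ≤
        K / Real.log N * ((positions P q m ×ˢ positions P q m).card : ℝ)) ∧
    -- more than `2 rho log² N` trials
    (∀ kap : ℝ, 2 * rho P < kap → ∀ k a : ℕ, ∃ (N₀ : ℕ) (K : ℝ), ∀ N : ℕ, N₀ ≤ N → ∀ q : ℕ,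
      (N : ℝ) ≤ q * Real.log N ^ a → q ≤ N → ∀ m : ℕ, |(m : ℝ) - kap * Real.log N ^ 2| ≤ 1 →
      (((positions P q m ×ˢ positions P q m).filter fun r =>
        ∃ n, Multiple P N q n ∧ (before r.1 n < k ∨ after r.2 n < k)).card : ℝ) ≤
        K / Real.log N * ((positions P q m ×ˢ positions P q m).card : ℝ)) ∧
    -- fewer than `2 rho log² N` trials
    (∀ kap ε : ℝ, 0 < kap → kap ≤ 2 * rho P → 0 < ε → ∀ a : ℕ, ∃ (N₀ : ℕ) (K : ℝ), ∀ N : ℕ, N₀ ≤ N → ∀ q : ℕ,
      (N : ℝ) ≤ q * Real.log N ^ a → q ≤ N → ∀ m : ℕ, |(m : ℝ) - kap * Real.log N ^ 2| ≤ 1 →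
      (((positions P q m ×ˢ positions P q m).filter fun r =>
        ¬ ∃ n, Multiple P N q n ∧ (after r.2 n : ℝ) ≤ ε * Real.log N).card : ℝ) ≤
        K / Real.log N * ((positions P q m ×ˢ positions P q m).card : ℝ)) := by
  have hreg : ∀ N q n : ℕ, Pool.Agent.Run7.h880.RP.RegSq N q n ↔ Regular N q n := by
    intro N q n
    have e : (12 : ℝ) / (2 * Real.log N) ^ 2 = 3 / Real.log N ^ 2 := by
      rw [mul_pow, div_mul_eq_div_div]
      norm_num
    unfold Pool.Agent.Run7.h880.RP.RegSq Regular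
    rw [e]
    constructor
    · intro h
      exact ⟨h false, h true⟩
    · rintro ⟨h1, h2⟩ b
      cases b
      · exact h1
      · exact h2
  have hbad : ∀ N q : ℕ, (Ioc N (2 * N)).filter (fun n => ¬ Regular N q n) =
      Ioc N (2 * N) \ Pool.Agent.Run7.h880.RP.GoodSq N q := by
    intro N q
    ext n
    unfold Pool.Agent.Run7.h880.RP.GoodSq
    simp only [Finset.mem_sdiff, mem_filter, hreg]
    tauto
  have hmem : ∀ P N q n : ℕ, n ∈ Pool.Agent.Run7.h880.RP.GM P N q ↔ Multiple P N q n := by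
    intro P N q n
    unfold Pool.Agent.Run7.h880.RP.GM Pool.Agent.Run7.h880.RP.GoodSq Multiple
    simp only [mem_filter, mem_Ioc, hreg]
    tauto
  have hpos : ∀ (P q m : ℕ) (w : Fin m → ℕ), w ∈ positions P q m → ∀ l, w l ∈ Icc 1 q := by
    intro P q m w hw l
    unfold positions at hw
    rw [Fintype.mem_piFinset] at hw
    exact (mem_filter.1 (hw l)).1
  have hhits0 : ∀ (P q m : ℕ) (w : Fin m → ℕ), w ∈ positions P q m → ∀ n : ℕ,
      Pool.Agent.Run7.h880.MK.hits (Pool.Agent.Run7.h880.RP.sqA n q false) w = before w n := by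
    intro P q m w hw n
    unfold Pool.Agent.Run7.h880.MK.hits before Pool.Agent.Run7.h880.RP.sqA
    congr 1
    refine filter_congr fun l _ => ?_
    rw [mem_filter]
    simp only [Bool.false_eq_true, if_false]
    exact ⟨fun h => h.2, fun h => ⟨hpos P q m w hw l, h⟩⟩
  have hhits1 : ∀ (P q m : ℕ) (w : Fin m → ℕ), w ∈ positions P q m → ∀ n : ℕ,
      Pool.Agent.Run7.h880.MK.hits (Pool.Agent.Run7.h880.RP.sqA n q true) w = after w n := by
    intro P q m w hw n
    unfold Pool.Agent.Run7.h880.MK.hits after Pool.Agent.Run7.h880.RP.sqA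
    congr 1
    refine filter_congr fun l _ => ?_
    rw [mem_filter]
    simp only [if_true]
    exact ⟨fun h => h.2, fun h => ⟨hpos P q m w hw l, h⟩⟩
  have r0 : rate 0 = 1 := by simp [rate]
  have r1 : rate 1 = 0 := by simp [rate]
  have hrate : ∀ x : ℝ, 0 ≤ x → 0 ≤ rate x := fun x hx => Pool.Agent.Run7.h880.RP.hf_nonneg hx
  refine ⟨?_, ?_⟩
  · intro a U
    obtain ⟨N₀, h⟩ := Pool.Agent.Run7.h880.RP.goodsq_card a U
    refine ⟨N₀, fun N hN q h1 h2 => ?_⟩
    rw [hbad]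
    exact h N hN q h1 h2
  intro P hP
  have hPr : (0 : ℝ) < P := by exact_mod_cast hP
  have htot : 0 < P.totient := Nat.totient_pos.2 hP
  have hrho : 0 < rho P := by unfold rho; positivity
  have hRg : ∀ kap : ℝ, Pool.Agent.Run7.h880.RP.Reg2 (1 / (2 * rho P)) (kap / (4 * rho P ^ 2)) = Region P kap := by
    intro kap
    unfold Pool.Agent.Run7.h880.RP.Reg2 Region
    ext z
    show (0 ≤ z.1 ∧ 0 ≤ z.2 ∧ kap / (4 * rho P ^ 2) * (rate z.1 + rate z.2) ≤ 1 / (2 * rho P)) ↔
      (0 ≤ z.1 ∧ 0 ≤ z.2 ∧ kap * (rate z.1 + rate z.2) ≤ 2 * rho P)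
    have e1 : kap / (4 * rho P ^ 2) * (rate z.1 + rate z.2) = kap * (rate z.1 + rate z.2) / (4 * rho P ^ 2) := by ring
    have e2 : 1 / (2 * rho P) = 2 * rho P / (4 * rho P ^ 2) := by field_simp; norm_num
    rw [e1, e2, div_le_div_iff_of_pos_right (by positivity)]
  have main : ∀ kap ε : ℝ, 0 < kap → 0 < ε → ∀ a : ℕ, ∃ (N₀ : ℕ) (K : ℝ), ∀ N : ℕ, N₀ ≤ N → ∀ q : ℕ,
      (N : ℝ) ≤ q * Real.log N ^ a → q ≤ N → ∀ m : ℕ, |(m : ℝ) - kap * Real.log N ^ 2| ≤ 1 →
      (((positions P q m ×ˢ positions P q m).filter fun r => ¬ Fills P kap ε N q r.1 r.2).card : ℝ) ≤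
        K / Real.log N * ((positions P q m ×ˢ positions P q m).card : ℝ) := by
    intro kap ε hkap hε a
    obtain ⟨K, hK, N₂, h2⟩ := Pool.Agent.Run7.h880.RP.main_tot P hP (rho P) rfl kap ε hkap hε a
    refine ⟨N₂, K, fun N hN q hq1 hq2 m hm => ?_⟩
    have key : ∀ r : (Fin m → ℕ) × (Fin m → ℕ),
        (r ∈ positions P q m ×ˢ positions P q m ∧ ¬ Fills P kap ε N q r.1 r.2) →
        ¬ Pool.Agent.Run7.h880.RP.Shape (Pool.Agent.Run7.h880.RP.GM P N q)
          (fun n => Pool.Agent.Run7.h880.RP.sqA n q false) (fun n => Pool.Agent.Run7.h880.RP.sqA n q true)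
          (kap / (2 * rho P) * Real.log N) (Pool.Agent.Run7.h880.RP.Reg2 (1 / (2 * rho P)) (kap / (4 * rho P ^ 2))) ε r := by
      rintro r ⟨hp, hnot⟩ hsh
      rw [mem_product] at hp
      refine hnot ?_
      unfold Pool.Agent.Run7.h880.RP.Shape at hsh
      rw [hRg] at hsh
      obtain ⟨s1, s2⟩ := hsh
      constructor
      · intro n hn
        obtain ⟨z, hz, h4⟩ := s1 n ((hmem P N q n).2 hn)
        rw [hhits0 P q m r.1 hp.1, hhits1 P q m r.2 hp.2] at h4
        exact ⟨z, hz, h4⟩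
      · intro z hz
        obtain ⟨n, hn, h4⟩ := s2 z hz
        rw [hhits0 P q m r.1 hp.1, hhits1 P q m r.2 hp.2] at h4
        exact ⟨n, (hmem P N q n).1 hn, h4⟩
    refine le_trans ?_ (h2 N hN q hq1 hq2 m hm
      (fun r => r ∈ positions P q m ×ˢ positions P q m ∧ ¬ Fills P kap ε N q r.1 r.2) key)
    refine Nat.cast_le.2 (card_le_card fun p hp => ?_)
    simp only [Finset.mem_filter] at hp ⊢
    exact ⟨hp.1, hp⟩
  refine ⟨main, ?_, ?_⟩
  · intro kap hkap k a
    have hkap0 : 0 < kap := by linarith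
    obtain ⟨δ, hδ, hδR⟩ : ∃ δ : ℝ, 0 < δ ∧ ∀ z ∈ Region P kap, δ ≤ z.1 ∧ δ ≤ z.2 := by
      have hcont : Continuous rate := by
        unfold rate
        exact (continuous_const.sub continuous_id).add Real.continuous_mul_log
      have h0 : ContinuousAt rate 0 := hcont.continuousAt
      have h1 := (Metric.continuousAt_iff.1 h0) (1 - 2 * rho P / kap) (by
        have : 2 * rho P / kap < 1 := by rw [div_lt_one hkap0]; exact hkap
        linarith)
      obtain ⟨δ, hδ, h2⟩ := h1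
      refine ⟨δ, hδ, fun z hz => ?_⟩
      obtain ⟨z1, z2, z3⟩ := hz
      have h3 : ∀ x : ℝ, 0 ≤ x → x < δ → 2 * rho P < kap * rate x := by
        intro x hx hxδ
        have h4 := h2 (show Dist.dist x 0 < δ by rw [Real.dist_eq, sub_zero, abs_of_nonneg hx]; exact hxδ)
        rw [Real.dist_eq, r0] at h4
        have h5 := (abs_lt.1 h4).1
        have h6 : 2 * rho P / kap < rate x := by linarith
        rw [div_lt_iff₀ hkap0] at h6
        linarith
      have g1 := mul_nonneg hkap0.le (hrate z.1 z1)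
      have g2 := mul_nonneg hkap0.le (hrate z.2 z2)
      constructor
      · by_contra hcon
        have := h3 z.1 z1 (not_le.1 hcon)
        linarith
      · by_contra hcon
        have := h3 z.2 z2 (not_le.1 hcon)
        linarith
    obtain ⟨N₁, K, h1⟩ := main kap (δ / 2) hkap0 (by positivity) a
    obtain ⟨ν, hν⟩ : ∃ ν, ν = kap / (2 * rho P) := ⟨_, rfl⟩
    have hν0 : 0 < ν := by rw [hν]; positivity
    obtain ⟨N₂, h2⟩ := eventually_atTop.1 ((Pool.Agent.N384.MQ.ev_log_ge (2 * (k + 1) / (δ * ν))).and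
      (Pool.Agent.N384.MQ.ev_log_ge 1))
    refine ⟨max N₁ N₂, K, fun N hN q hq1 hq2 m hm => le_trans ?_ (h1 N (le_trans (le_max_left _ _) hN) q hq1 hq2 m hm)⟩
    obtain ⟨l2, l1⟩ := h2 N (le_trans (le_max_right _ _) hN)
    have hδk : 0 < δ * ν := by positivity
    rw [div_le_iff₀ hδk] at l2
    have hL0 : 0 < Real.log N := by linarith
    refine Nat.cast_le.2 (card_le_card fun r hr => ?_)
    simp only [Finset.mem_filter] at hr ⊢
    refine ⟨hr.1, fun hF => ?_⟩
    obtain ⟨n, hn, hlt⟩ := hr.2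
    obtain ⟨z, hz, h3⟩ := hF.1 n hn
    obtain ⟨h4, h5⟩ := hδR z hz
    unfold dist at h3
    rw [← hν] at h3
    obtain ⟨μ, hμ⟩ : ∃ μ, μ = ν * Real.log N := ⟨_, rfl⟩
    have hμ0 : 0 < μ := by rw [hμ]; positivity
    rw [← hμ] at h3
    have a1 := neg_abs_le ((before r.1 n : ℝ) / μ - z.1)
    have a2 := neg_abs_le ((after r.2 n : ℝ) / μ - z.2)
    have a3 := abs_nonneg ((before r.1 n : ℝ) / μ - z.1)
    have a4 := abs_nonneg ((after r.2 n : ℝ) / μ - z.2)
    have b1 : δ / 2 ≤ (before r.1 n : ℝ) / μ := by linarith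
    have b2 : δ / 2 ≤ (after r.2 n : ℝ) / μ := by linarith
    rw [le_div_iff₀ hμ0, hμ] at b1 b2
    have c1 : (k : ℝ) + 1 ≤ δ / 2 * (ν * Real.log N) := by nlinarith
    rcases hlt with h | h
    · have h8 : (before r.1 n : ℝ) < k := by exact_mod_cast h
      linarith
    · have h8 : (after r.2 n : ℝ) < k := by exact_mod_cast h
      linarith
  · intro kap ε hkap hkap1 hε a
    obtain ⟨ν, hν⟩ : ∃ ν, ν = kap / (2 * rho P) := ⟨_, rfl⟩
    have hν0 : 0 < ν := by rw [hν]; positivity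
    obtain ⟨N₁, K, h1⟩ := main kap (ε / ν) hkap (by positivity) a
    obtain ⟨N₂, h2⟩ := eventually_atTop.1 (Pool.Agent.N384.MQ.ev_log_ge 1)
    refine ⟨max N₁ N₂, K, fun N hN q hq1 hq2 m hm => le_trans ?_ (h1 N (le_trans (le_max_left _ _) hN) q hq1 hq2 m hm)⟩
    have l2 := h2 N (le_trans (le_max_right _ _) hN)
    have hL0 : 0 < Real.log N := by linarith
    refine Nat.cast_le.2 (card_le_card fun r hr => ?_)
    simp only [Finset.mem_filter] at hr ⊢
    refine ⟨hr.1, fun hF => hr.2 ?_⟩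
    obtain ⟨n, hn, h3⟩ := hF.2 (1, 0) ⟨zero_le_one, le_rfl, by
      show kap * (rate 1 + rate 0) ≤ 2 * rho P
      rw [r0, r1]
      linarith⟩
    refine ⟨n, hn, ?_⟩
    unfold dist at h3
    simp only [sub_zero] at h3
    rw [← hν] at h3
    obtain ⟨μ, hμ⟩ : ∃ μ, μ = ν * Real.log N := ⟨_, rfl⟩
    have hμ0 : 0 < μ := by rw [hμ]; positivity
    rw [← hμ] at h3
    have h5 := abs_nonneg ((before r.1 n : ℝ) / μ - 1)
    have h6 := le_abs_self ((after r.2 n : ℝ) / μ)
    have h7 : (after r.2 n : ℝ) / μ ≤ ε / ν := by linarith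
    rw [div_le_iff₀ hμ0] at h7
    refine h7.trans (le_of_eq ?_)
    rw [hμ]
    field_simp

end Pool.Agent.Results.MP_36c81c_nt.TotientScaling
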